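import Pool.Agent.helper32.QS.Spec

/-!
# Module FS4 of project QS
-/

set_option autoImplicit false

open scoped BigOperators commutatorElement

namespace QS

theorem FS4_pow {H : Type} [Group H] (z t : H) (hc : ⁅z, t⁆ * z = z * ⁅z, t⁆) (i : ℕ) :
    z ^ i * t = ⁅z, t⁆ ^ i * t * z ^ i := by
  have h0 : z * t = ⁅z, t⁆ * t * z := by
    rw [commutatorElement_def]; group
  have hcz : ∀ j : ℕ, z * ⁅z, t⁆ ^ j = ⁅z, t⁆ ^ j * z := fun j =>
    ((show Commute z ⁅z, t⁆ from hc.symm).pow_right j).eq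
  induction i with
  | zero => simp
  | succ i ih =>
    calc z ^ (i + 1) * t = z * (z ^ i * t) := by rw [pow_succ', mul_assoc]
      _ = z * (⁅z, t⁆ ^ i * t * z ^ i) := by rw [ih]
      _ = (z * ⁅z, t⁆ ^ i) * t * z ^ i := by simp only [mul_assoc]
      _ = ⁅z, t⁆ ^ i * (z * t) * z ^ i := by rw [hcz]; simp only [mul_assoc]
      _ = ⁅z, t⁆ ^ i * (⁅z, t⁆ * t * z) * z ^ i := by rw [← h0]
      _ = ⁅z, t⁆ ^ (i + 1) * t * z ^ (i + 1) := by
        rw [pow_succ, pow_succ']; simp only [mul_assoc]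

theorem FS4 (hK3 : K3_stmt) (hFS1 : FS1_stmt) : FS4_stmt := by
  intro k U H _ _ _ _ _ _ _ _ hD S hS p hp
  obtain ⟨_, _, hcard, hcomm⟩ := hK3 k U H hD
  refine ⟨fun z hz hzA hzp => ?_, ?_⟩
  · have h1 : ∃ t ∈ S, z * t ≠ t * z := by
      by_contra hcon
      exact hzA (hS.cent z hz (fun y hy => by
        by_contra hne
        exact hcon ⟨y, hy, hne⟩))
    obtain ⟨t, ht, hne⟩ := h1
    have hcA : ⁅z, t⁆ ∈ SA k U H := hS.comm z hz t ht
    have hc : ⁅z, t⁆ * z = z * ⁅z, t⁆ := hcomm _ hcA z (hS.hC hz)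
    have hcp : ⁅z, t⁆ ^ p = 1 := by
      have h2 := FS4_pow z t hc p
      rw [hzp, one_mul, mul_one] at h2
      exact (mul_eq_right.1 h2.symm)
    have hc1 : ⁅z, t⁆ ≠ 1 := by
      intro h
      exact hne (commutatorElement_eq_one_iff_mul_comm.1 h)
    haveI : Fact p.Prime := ⟨hp⟩
    have ho : orderOf ⁅z, t⁆ = p := orderOf_eq_prime hcp hc1
    exact hFS1 k U H hD z (hS.hC hz) t (hS.hC ht) hcA p (by rw [ho])
  · classical
    let Z := {z : H // z ∈ S ∧ z ^ p = 1}
    let Q := S ⧸ (SA k U H).subgroupOf S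
    let f : Z → Q := fun z => QuotientGroup.mk (⟨z.1, z.2.1⟩ : S)
    haveI : Fintype Z := Fintype.ofFinite Z
    haveI : Fintype Q := Fintype.ofFinite Q
    have hfib : ∀ q ∈ (Finset.univ : Finset Z).image f,
        ((Finset.univ : Finset Z).filter (fun z => f z = q)).card ≤ p := by
      intro q hq
      obtain ⟨z0, _, hz0⟩ := Finset.mem_image.1 hq
      have hle := hcard p hp.one_lt.le
      refine le_trans ?_ hle
      let B := {a : H // a ∈ SA k U H ∧ a ^ p = 1}
      haveI : Fintype B := Fintype.ofFinite B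
      have key : ∀ z : Z, f z = q → (z0.1)⁻¹ * z.1 ∈ SA k U H ∧ ((z0.1)⁻¹ * z.1) ^ p = 1 := by
        intro z hz
        have h3 : f z0 = f z := by rw [hz0, hz]
        have h4 : (⟨z0.1, z0.2.1⟩ : S)⁻¹ * (⟨z.1, z.2.1⟩ : S) ∈ (SA k U H).subgroupOf S :=
          QuotientGroup.eq.1 h3
        have h5 : (z0.1)⁻¹ * z.1 ∈ SA k U H := by
          rw [Subgroup.mem_subgroupOf] at h4
          exact h4
        refine ⟨h5, ?_⟩
        have h6 : Commute ((z0.1)⁻¹ * z.1) z0.1 := hcomm _ h5 z0.1 (hS.hC z0.2.1)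
        have h7 : (z0.1 * ((z0.1)⁻¹ * z.1)) ^ p = z0.1 ^ p * ((z0.1)⁻¹ * z.1) ^ p :=
          h6.symm.mul_pow p
        rw [mul_inv_cancel_left, z.2.2, z0.2.2, one_mul] at h7
        exact h7.symm
      rw [Nat.card_eq_fintype_card, ← Finset.card_univ]
      refine Finset.card_le_card_of_injOn
        (fun z => if h : f z = q then (⟨(z0.1)⁻¹ * z.1, key z h⟩ : B) else ⟨1, (SA k U H).one_mem, one_pow p⟩)
        (fun z _ => Finset.mem_coe.2 (Finset.mem_univ _)) ?_
      intro z hz w hw hzw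
      have hz' : f z = q := (Finset.mem_filter.1 (Finset.mem_coe.1 hz)).2
      have hw' : f w = q := (Finset.mem_filter.1 (Finset.mem_coe.1 hw)).2
      simp only [hz', hw', dif_pos] at hzw
      have h8 := congrArg Subtype.val hzw
      simp only at h8
      exact Subtype.ext (mul_left_cancel h8)
    have h1 := Finset.card_le_mul_card_image (f := f) (Finset.univ : Finset Z) p hfib
    have h2 : ((Finset.univ : Finset Z).image f).card ≤ Fintype.card Q := Finset.card_le_univ _
    have h3 : (SA k U H).relIndex S = Fintype.card Q := by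
      rw [Subgroup.relIndex, Subgroup.index, Nat.card_eq_fintype_card]
    rw [h3]
    calc Nat.card Z = Fintype.card Z := Nat.card_eq_fintype_card
      _ = (Finset.univ : Finset Z).card := (Finset.card_univ).symm
      _ ≤ p * ((Finset.univ : Finset Z).image f).card := h1
      _ ≤ p * Fintype.card Q := Nat.mul_le_mul_left _ h2

end QS
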